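import Pool.Agent.helper5.PR.SpecZ

set_option autoImplicit false

namespace Pool.Agent.PR

open Matrix Module

section

variable {K V : Type} [Field K] [AddCommGroup V] [Module K V] {Q : Type} [Group Q]

/-- weight space of `H` for the weight `χ` -/
def Z_STAB_wt (ρ : Q →* Module.End K V) (H : Subgroup Q) (χ : Q → K) : Submodule K V where
  carrier := {v | ∀ g ∈ H, ρ g v = χ g • v}
  add_mem' := by
    intro a b ha hb g hg
    rw [map_add, ha g hg, hb g hg, smul_add]
  zero_mem' := by
    intro g _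
    simp
  smul_mem' := by
    intro c x hx g hg
    rw [map_smul, hx g hg, smul_comm]

theorem Z_STAB_mem (ρ : Q →* Module.End K V) (H : Subgroup Q) (χ : Q → K) (v : V) :
    v ∈ Z_STAB_wt ρ H χ ↔ ∀ g ∈ H, ρ g v = χ g • v := Iff.rfl

/-- nonzero weight space of a subgroup of finite index of `D` -/
def Z_STAB_good (ρ : Q →* Module.End K V) (D : Subgroup Q) (W : Submodule K V) : Prop :=
  W ≠ ⊥ ∧ ∃ (H : Subgroup Q) (χ : Q → K), H ≤ D ∧ H.relIndex D ≠ 0 ∧ W = Z_STAB_wt ρ H χ

theorem Z_STAB_one (ρ : Q →* Module.End K V) (v : V) : ρ 1 v = v := by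
  rw [map_one]; rfl

theorem Z_STAB_mul (ρ : Q →* Module.End K V) (p q : Q) (v : V) : ρ p (ρ q v) = ρ (p * q) v := by
  rw [map_mul]; rfl

theorem Z_STAB_map_mul (ρ : Q →* Module.End K V) (p q : Q) (W : Submodule K V) :
    W.map (ρ (p * q)) = (W.map (ρ q)).map (ρ p) := by
  rw [map_mul]; exact Submodule.map_comp _ _ _

theorem Z_STAB_map_one (ρ : Q →* Module.End K V) (W : Submodule K V) :
    W.map (ρ 1) = W := by
  rw [map_one]; exact Submodule.map_id W

theorem Z_STAB_conj (ρ : Q →* Module.End K V) (D : Subgroup Q) (hD : D.Normal) (p : Q)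
    (W : Submodule K V) (h : Z_STAB_good ρ D W) : Z_STAB_good ρ D (W.map (ρ p)) := by
  obtain ⟨hW, H, χ, hHD, hH, hWe⟩ := h
  have hDm : D.map (MulAut.conj p).toMonoidHom = D := by
    apply le_antisymm
    · rintro _ ⟨x, hx, rfl⟩
      exact hD.conj_mem x hx p
    · intro x hx
      refine ⟨p⁻¹ * x * p, ?_, ?_⟩
      · have := hD.conj_mem x hx p⁻¹
        rwa [inv_inv] at this
      · show p * (p⁻¹ * x * p) * p⁻¹ = x
        group
  have hinj : Function.Injective (MulAut.conj p).toMonoidHom := (MulAut.conj p).injective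
  refine ⟨?_, H.map (MulAut.conj p).toMonoidHom, fun g => χ (p⁻¹ * g * p), ?_, ?_, ?_⟩
  · intro h
    apply hW
    rw [Submodule.eq_bot_iff]
    intro v hv
    have h1 : ρ p v ∈ W.map (ρ p) := Submodule.mem_map_of_mem hv
    rw [h, Submodule.mem_bot] at h1
    have h2 : ρ p⁻¹ (ρ p v) = v := by
      rw [Z_STAB_mul, inv_mul_cancel, Z_STAB_one]
    rw [← h2, h1, map_zero]
  · calc H.map (MulAut.conj p).toMonoidHom ≤ D.map (MulAut.conj p).toMonoidHom :=
        Subgroup.map_mono hHD
      _ = D := hDm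
  · have := Subgroup.relIndex_map_map_of_injective H D hinj
    rw [hDm] at this
    rw [this]; exact hH
  · ext v
    constructor
    · rintro ⟨w, hw, rfl⟩
      rw [hWe] at hw
      rintro _ ⟨h, hh, rfl⟩
      show ρ (p * h * p⁻¹) (ρ p w) = χ (p⁻¹ * (p * h * p⁻¹) * p) • ρ p w
      rw [show p⁻¹ * (p * h * p⁻¹) * p = h by group, Z_STAB_mul,
        show p * h * p⁻¹ * p = p * h by group, ← Z_STAB_mul, hw h hh, map_smul]
    · intro hv
      refine ⟨ρ p⁻¹ v, ?_, ?_⟩
      · rw [hWe]
        intro h hh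
        have h1 := hv (p * h * p⁻¹) ⟨h, hh, rfl⟩
        have h1' : ρ (p * h * p⁻¹) v = χ h • v := by
          rw [h1]
          show χ (p⁻¹ * (p * h * p⁻¹) * p) • v = χ h • v
          rw [show p⁻¹ * (p * h * p⁻¹) * p = h by group]
        rw [Z_STAB_mul, ← map_smul, ← h1', Z_STAB_mul,
          show p⁻¹ * (p * h * p⁻¹) = h * p⁻¹ by group]
      · rw [Z_STAB_mul, mul_inv_cancel, Z_STAB_one]

theorem Z_STAB_max (ρ : Q →* Module.End K V) (D : Subgroup Q) (hD : D.Normal) (p : Q)
    (W : Submodule K V) (h : Maximal (Z_STAB_good ρ D) W) :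
    Maximal (Z_STAB_good ρ D) (W.map (ρ p)) := by
  refine ⟨Z_STAB_conj ρ D hD p W h.1, ?_⟩
  intro U hU hWU
  have h1 : W ≤ U.map (ρ p⁻¹) := by
    have h2 : W = (W.map (ρ p)).map (ρ p⁻¹) := by
      rw [← Z_STAB_map_mul, inv_mul_cancel, Z_STAB_map_one]
    rw [h2]
    exact Submodule.map_mono hWU
  have h3 := h.2 (Z_STAB_conj ρ D hD p⁻¹ U hU) h1
  have h4 : U = (U.map (ρ p⁻¹)).map (ρ p) := by
    rw [← Z_STAB_map_mul, mul_inv_cancel, Z_STAB_map_one]
  rw [h4]
  exact Submodule.map_mono h3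

theorem Z_STAB_card [FiniteDimensional K V] (ρ : Q →* Module.End K V) (D : Subgroup Q)
    (T : Finset (Submodule K V)) (hT : ∀ W ∈ T, Maximal (Z_STAB_good ρ D) W) :
    T.card ≤ finrank K V := by
  classical
  have h1 : ∀ W : T, ∃ (H : Subgroup Q) (χ : Q → K), H ≤ D ∧ H.relIndex D ≠ 0 ∧
      (W : Submodule K V) = Z_STAB_wt ρ H χ := fun W => (hT W W.2).1.2
  choose H χ hHD hHi hWe using h1
  set H₀ : Subgroup Q := D ⊓ ⨅ W : T, H W with hH₀
  have hH₀D : H₀ ≤ D := inf_le_left
  have hH₀i : H₀.relIndex D ≠ 0 := by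
    apply Subgroup.relIndex_inf_ne_zero
    · rw [Subgroup.relIndex_self]; exact one_ne_zero
    · exact Subgroup.relIndex_iInf_ne_zero hHi
  have hH₀W : ∀ W : T, H₀ ≤ H W := fun W => inf_le_right.trans (iInf_le _ W)
  have hWe' : ∀ W : T, (W : Submodule K V) = Z_STAB_wt ρ H₀ (χ W) := by
    intro W
    have h2 : (W : Submodule K V) ≤ Z_STAB_wt ρ H₀ (χ W) := by
      intro v hv
      rw [hWe W] at hv
      intro g hg
      exact hv g (hH₀W W hg)
    have h3 : Z_STAB_good ρ D (Z_STAB_wt ρ H₀ (χ W)) := by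
      refine ⟨?_, H₀, χ W, hH₀D, hH₀i, rfl⟩
      intro h
      rw [h, le_bot_iff] at h2
      exact (hT W W.2).1.1 h2
    exact le_antisymm h2 ((hT W W.2).2 h3 h2)
  have hex : ∀ W : T, ∃ v : V, v ∈ (W : Submodule K V) ∧ v ≠ 0 := fun W =>
    (Submodule.ne_bot_iff _).1 (hT W W.2).1.1
  choose v hv hv0 using hex
  have hact : ∀ (W : T) (g : Q), g ∈ H₀ → ρ g (v W) = χ W g • v W := by
    intro W g hg
    have := hv W
    rw [hWe' W] at this
    exact this g hg
  -- the characters
  let f : T → (H₀ →* K) := fun W =>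
    { toFun := fun g => χ W g
      map_one' := by
        have h2 := hact W 1 H₀.one_mem
        rw [Z_STAB_one] at h2
        have h3 : (χ W 1 - 1) • v W = 0 := by rw [sub_smul, ← h2, one_smul, sub_self]
        have h4 := (smul_eq_zero.1 h3).resolve_right (hv0 W)
        exact sub_eq_zero.1 h4
      map_mul' := by
        intro a b
        have h2 := hact W (a * b) (H₀.mul_mem a.2 b.2)
        rw [← Z_STAB_mul, hact W b b.2, map_smul, hact W a a.2, smul_smul] at h2
        have h3 : (χ W b * χ W a - χ W (a * b)) • v W = 0 := by rw [sub_smul, h2, sub_self]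
        have h4 := (smul_eq_zero.1 h3).resolve_right (hv0 W)
        have h5 := sub_eq_zero.1 h4
        show χ W ((a : Q) * b) = χ W a * χ W b
        rw [← h5, mul_comm] }
  have hf : Function.Injective f := by
    intro W W' h
    apply Subtype.ext
    rw [hWe' W, hWe' W']
    ext x
    rw [Z_STAB_mem, Z_STAB_mem]
    have h2 : ∀ g ∈ H₀, χ W g = χ W' g := fun g hg => DFunLike.congr_fun h (⟨g, hg⟩ : H₀)
    constructor
    · intro hx g hg
      rw [hx g hg, h2 g hg]
    · intro hx g hg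
      rw [hx g hg, h2 g hg]
  have hli : LinearIndependent K (fun W : T => (f W : H₀ → K)) :=
    (linearIndependent_monoidHom H₀ K).comp f hf
  have hli2 : LinearIndependent K v := by
    rw [linearIndependent_iff']
    intro s c hc W hW
    by_contra hcW
    have h2 : ∀ ℓ : Module.Dual K V, ℓ (v W) = 0 := by
      intro ℓ
      have h3 : ∑ i ∈ s, (c i * ℓ (v i)) • (f i : H₀ → K) = 0 := by
        funext g
        have h4 := congrArg (fun x => ℓ (ρ g x)) hc
        simp only [map_sum, map_smul, map_zero] at h4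
        rw [Finset.sum_apply]
        refine Eq.trans ?_ h4
        apply Finset.sum_congr rfl
        intro i _
        rw [hact i g g.2, map_smul]
        show (c i * ℓ (v i)) * χ i g = c i • (χ i g • ℓ (v i))
        rw [smul_eq_mul, smul_eq_mul]
        ring
      have h5 := (linearIndependent_iff'.1 hli) s (fun i => c i * ℓ (v i)) h3 W hW
      exact (mul_eq_zero.1 h5).resolve_left hcW
    exact hv0 W ((Module.forall_dual_apply_eq_zero_iff K (v W)).1 h2)
  have := hli2.fintype_card_le_finrank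
  rwa [Fintype.card_coe] at this

end

theorem Z_STAB : Z_STAB_stmt := by
  intro K V _ _ _ _ Q _ ρ D D₁ hD hD₁ hi hv
  obtain ⟨v, hv0, hv⟩ := hv
  -- a good submodule
  have hex : ∃ W : Submodule K V, Z_STAB_good ρ D W := by
    classical
    choose c hc using hv
    refine ⟨Z_STAB_wt ρ D₁ (fun g => if h : g ∈ D₁ then c g h else 0), ?_, D₁, _, hD₁, hi, rfl⟩
    rw [Submodule.ne_bot_iff]
    refine ⟨v, ?_, hv0⟩
    intro g hg
    have h1 : (fun g => if h : g ∈ D₁ then c g h else 0) g = c g hg := dif_pos hg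
    rw [h1]
    exact hc g hg
  obtain ⟨W, hW⟩ := exists_maximal_of_wellFoundedGT _ hex
  have hfin : {U : Submodule K V | Maximal (Z_STAB_good ρ D) U}.Finite := by
    by_contra hinf
    obtain ⟨T, hTs, hTc⟩ := Set.Infinite.exists_subset_card_eq hinf (finrank K V + 1)
    have := Z_STAB_card ρ D T (fun U hU => hTs hU)
    omega
  let act : MulAction Q (Submodule K V) :=
    { smul := fun p U => U.map (ρ p)
      one_smul := fun U => Z_STAB_map_one ρ U
      mul_smul := fun a b U => Z_STAB_map_mul ρ a b U }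
  have hsm : ∀ (p : Q) (U : Submodule K V), p • U = U.map (ρ p) := fun p U => rfl
  have horb : (MulAction.orbit Q W).Finite := by
    apply hfin.subset
    rintro _ ⟨p, rfl⟩
    exact Z_STAB_max ρ D hD p W hW
  obtain ⟨hWb, H, χ, hHD, hHi, hWe⟩ := hW.1
  refine ⟨MulAction.stabilizer Q W, H, W, ⟨?_⟩, hHD, hHi, hWb, ?_, ?_⟩
  · rw [MulAction.index_stabilizer]
    exact ((Set.ncard_pos horb).2 (MulAction.nonempty_orbit W)).ne'
  · intro g hg w hw
    have h1 : W.map (ρ g) = W := hg
    have h2 : ρ g w ∈ W.map (ρ g) := Submodule.mem_map_of_mem hw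
    rwa [h1] at h2
  · intro h hh
    refine ⟨χ h, fun w hw => ?_⟩
    rw [hWe] at hw
    exact hw h hh

end Pool.Agent.PR
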