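import Pool.Agent.helper48.PR.SpecT

/-! # Project pr, module TH: the theorem for `n = 3` -/

set_option autoImplicit false

namespace Pool.Agent.PR

open Matrix Polynomial

/-- the representation over `ℚ_p` -/
noncomputable def TH_rho {n q : ℕ} [Fact q.Prime] {Λ : Type} [Group Λ] (f : Λ →* GL (Fin n) ℤ_[q]) :
    Λ →* Matrix (Fin n) (Fin n) ℚ_[q] where
  toFun l := qM (f l)
  map_one' := by
    rw [map_one]
    unfold qM
    rw [Units.val_one]
    exact map_one ((PadicInt.Coe.ringHom (p := q)).mapMatrix (m := Fin n))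
  map_mul' a b := by
    rw [map_mul]
    unfold qM
    rw [Units.val_mul]
    exact map_mul ((PadicInt.Coe.ringHom (p := q)).mapMatrix (m := Fin n)) _ _

theorem TH_inj {n q : ℕ} [Fact q.Prime] {Λ : Type} [Group Λ] (f : Λ →* GL (Fin n) ℤ_[q])
    (hf : Function.Injective f) : Function.Injective (TH_rho f) := by
  intro a b h
  apply hf
  apply Units.ext
  apply Matrix.ext
  intro i j
  have h1 : (((f a : Matrix (Fin n) (Fin n) ℤ_[q]) i j : ℤ_[q]) : ℚ_[q]) =
      (((f b : Matrix (Fin n) (Fin n) ℤ_[q]) i j : ℤ_[q]) : ℚ_[q]) := congrFun (congrFun h i) j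
  exact Subtype.ext h1

theorem TH_det {n q : ℕ} [Fact q.Prime] {Λ : Type} [Group Λ] (f : Λ →* GL (Fin n) ℤ_[q]) (l : Λ)
    (h : (f l : Matrix (Fin n) (Fin n) ℤ_[q]).det = 1) : (TH_rho f l).det = 1 := by
  have h1 : TH_rho f l = (PadicInt.Coe.ringHom (p := q)).mapMatrix
      (f l : Matrix (Fin n) (Fin n) ℤ_[q]) := rfl
  rw [h1, ← RingHom.map_det, h, map_one]

theorem TH_tr {n q : ℕ} [Fact q.Prime] {Λ : Type} [Group Λ] (f : Λ →* GL (Fin n) ℤ_[q]) (l : Λ)
    (t : ℤ) (h : (f l : Matrix (Fin n) (Fin n) ℤ_[q]).trace = (t : ℤ_[q])) :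
    (TH_rho f l).trace = (t : ℚ_[q]) := by
  have h1 : (TH_rho f l).trace =
      (PadicInt.Coe.ringHom (p := q)) ((f l : Matrix (Fin n) (Fin n) ℤ_[q]).trace) := by
    rw [Matrix.trace, Matrix.trace, map_sum]
    rfl
  rw [h1, h, map_intCast]

theorem TH (hRHO : LRHO_stmt) (hFAI : LFAI_stmt) (hDET : LDET_stmt) (hINT : LINT_stmt)
    (hTC : TC_stmt) (hTF : TF_stmt) (hTG : TG_stmt) (hTV : TV_stmt) : TH_stmt := by
  intro Λ _ hFG hRF hQ hQ' hiso a b hab hind C hC
  choose f hf using fun q : Nat.Primes => hRHO 3 le_rfl Λ hFG hQ' (q : ℕ)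
  let p : Nat.Primes := ⟨2, Nat.prime_two⟩
  have hinj := hFAI 3 le_rfl Λ hFG hQ hRF f hf p
  have hdet := hDET 3 le_rfl Λ hQ f hf p
  have hint := hINT 3 le_rfl Λ hFG hQ f hf p
  have ha : ∀ k : ℕ, 0 < k → a ^ k ≠ 1 := by
    intro k hk h
    have := (hind k 0 (by rw [zpow_natCast, h, zpow_zero, mul_one])).1
    omega
  have hb : ∀ k : ℕ, 0 < k → ∀ m : ℤ, b ^ k ≠ a ^ m := by
    intro k hk m h
    have := (hind (-m) k (by rw [zpow_natCast, h, ← _root_.zpow_add, neg_add_cancel, zpow_zero])).2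
    omega
  have hb1 : b ≠ 1 := by
    intro h
    have := (hind 0 1 (by rw [h]; simp)).2
    omega
  rcases hTC Λ hFG hQ hRF f hf p a b hab ha hb with h | ⟨t, t', hchar, hirr⟩
  · exact absurd h hiso
  have hchar' : (TH_rho (f p) a).charpoly =
      ((cub t t').map (Int.castRingHom ℚ)).map (algebraMap ℚ ℚ_[(p : ℕ)]) := by
    rw [Polynomial.map_map]
    have e : (algebraMap ℚ ℚ_[(p : ℕ)]).comp (Int.castRingHom ℚ) = Int.castRingHom ℚ_[(p : ℕ)] :=
      RingHom.ext_int _ _
    rw [e]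
    exact hchar
  have i1 := TH_inj (f p) hinj
  have i2 : ∀ l, (TH_rho (f p) l).det = 1 := fun l => TH_det (f p) l (hdet l)
  have i3 : ∀ l, ∃ t : ℤ, (TH_rho (f p) l).trace = (t : ℚ_[(p : ℕ)]) := by
    intro l
    obtain ⟨t, ht⟩ := hint l
    exact ⟨t, TH_tr (f p) l t ht⟩
  have hF := hTF ℚ_[(p : ℕ)] Λ (TH_rho (f p)) i1 i2 i3 a _ hirr hchar'
  have hG := hTG ℚ_[(p : ℕ)] Λ (TH_rho (f p)) i1 i2 i3 a _ hirr hchar'
  have hV := hTV ℚ_[(p : ℕ)] Λ (TH_rho (f p)) i1 i2 i3 a _ hirr hchar' b hab hind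
  have hCa : C = Subgroup.centralizer {a} := by
    rw [hC]
    apply le_antisymm
    · apply Subgroup.centralizer_le
      intro x hx
      rw [Set.mem_singleton_iff] at hx
      rw [hx]
      exact Set.mem_insert _ _
    · intro x hx
      have hbC : b ∈ Subgroup.centralizer {a} := by
        rw [Subgroup.mem_centralizer_singleton_iff]
        exact hab.symm
      have hx' := hx
      rw [← hF b hbC hb1] at hx'
      rw [Subgroup.mem_centralizer_iff]
      intro y hy
      rcases hy with hy | hy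
      · rw [hy]
        exact (Subgroup.mem_centralizer_iff.1 hx) a rfl
      · rw [Set.mem_singleton_iff] at hy
        rw [hy]
        exact (Subgroup.mem_centralizer_iff.1 hx') b rfl
  rw [hCa]
  refine ⟨hV, hF, ?_, hG⟩
  rintro x ⟨c, hc, hc1, hxc⟩
  have hc2 : x * c * x⁻¹ ≠ 1 := by
    intro h
    apply hc1
    have : c = x⁻¹ * (x * c * x⁻¹) * x := by group
    rw [this, h]
    group
  have e1 := hF c hc hc1
  have e2 := hF _ hxc hc2
  rw [Subgroup.mem_normalizer_iff]
  intro d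
  have key : (d * c = c * d) ↔ (x * d * x⁻¹ * (x * c * x⁻¹) = x * c * x⁻¹ * (x * d * x⁻¹)) := by
    constructor
    · intro h
      have h1 : x * d * x⁻¹ * (x * c * x⁻¹) = x * (d * c) * x⁻¹ := by group
      rw [h1, h]
      group
    · intro h
      have h1 : d * c = x⁻¹ * (x * d * x⁻¹ * (x * c * x⁻¹)) * x := by group
      rw [h1, h]
      group
  constructor
  · intro hd
    rw [← e2, Subgroup.mem_centralizer_singleton_iff]
    rw [← e1, Subgroup.mem_centralizer_singleton_iff] at hd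
    exact key.1 hd
  · intro hd
    rw [← e1, Subgroup.mem_centralizer_singleton_iff]
    rw [← e2, Subgroup.mem_centralizer_singleton_iff] at hd
    exact key.2 hd

end Pool.Agent.PR
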