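import Pool.Agent.helper5.PR.SpecK

/-! # Project pr, module K-TRACE -/

set_option autoImplicit false

namespace Pool.Agent.PR

open Matrix

/-- `GL(n, ℤ_p) → GL(n, ℚ_p)`. -/
noncomputable def K_TRACE_map (n p : ℕ) [Fact p.Prime] : GL (Fin n) ℤ_[p] →* GL (Fin n) ℚ_[p] :=
  Matrix.GeneralLinearGroup.map (PadicInt.Coe.ringHom (p := p))

theorem K_TRACE_inj (n p : ℕ) [Fact p.Prime] : Function.Injective (K_TRACE_map n p) := by
  intro g h hgh
  apply Units.ext
  ext i j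
  have h1 := congrArg (fun u : GL (Fin n) ℚ_[p] => (u : Matrix (Fin n) (Fin n) ℚ_[p]) i j) hgh
  simp only [K_TRACE_map, Matrix.GeneralLinearGroup.map_apply] at h1
  exact Subtype.ext h1

theorem K_TRACE_tr (n p : ℕ) [Fact p.Prime] (g : GL (Fin n) ℤ_[p]) :
    ((K_TRACE_map n p g : GL (Fin n) ℚ_[p]) : Matrix (Fin n) (Fin n) ℚ_[p]).trace =
      (((g : Matrix (Fin n) (Fin n) ℤ_[p]).trace : ℤ_[p]) : ℚ_[p]) := by
  have h1 : (((g : Matrix (Fin n) (Fin n) ℤ_[p]).trace : ℤ_[p]) : ℚ_[p]) =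
      (PadicInt.Coe.ringHom (p := p)) ((g : Matrix (Fin n) (Fin n) ℤ_[p]).trace) := rfl
  rw [h1, Matrix.trace, Matrix.trace, map_sum]
  apply Finset.sum_congr rfl
  intro i _
  simp only [K_TRACE_map, Matrix.diag_apply, Matrix.GeneralLinearGroup.map_apply]

theorem K_TRACE (h : K_CMP_stmt) : K_TRACE_stmt := by
  intro n hn Λ _ hFG hQ p q _ _ ρ ρ' hρ hρ'
  have h1 : (Set.range ((K_TRACE_map n p).comp ρ)).Infinite := by
    rw [MonoidHom.coe_comp, Set.range_comp]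
    exact hρ.image (K_TRACE_inj n p).injOn
  have h2 : (Set.range ((K_TRACE_map n q).comp ρ')).Infinite := by
    rw [MonoidHom.coe_comp, Set.range_comp]
    exact hρ'.image (K_TRACE_inj n q).injOn
  obtain ⟨t, ht, ht'⟩ := h n hn Λ hFG hQ ℚ_[p] ℚ_[q] ((K_TRACE_map n p).comp ρ)
    ((K_TRACE_map n q).comp ρ') h1 h2
  refine ⟨t, fun l => ?_, ?_⟩
  · rw [← K_TRACE_tr]
    exact ht l
  · rcases ht' with h3 | h3
    · left
      intro l
      rw [← K_TRACE_tr]
      exact h3 l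
    · right
      intro l
      rw [← K_TRACE_tr]
      exact h3 l

end Pool.Agent.PR
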