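import Pool.Agent.helper17.PR.SpecN

/-! # Project pr, module N_BIG: the case of class `≥ n - 1` -/

set_option autoImplicit false

namespace Pool.Agent.PR

open Module
open scoped commutatorElement

theorem N_BIG_sub {G : Type} [Group G] (H : Subgroup G) (c : ℕ)
    (h : (⊤ : Subgroup G).lowerCentralSeries c = ⊥) :
    (⊤ : Subgroup H).lowerCentralSeries c = ⊥ := by
  have h1 : ((⊤ : Subgroup H).lowerCentralSeries c).map H.subtype ≤ ⊥ := by
    rw [← h, Subgroup.top_subtype_lowerCentralSeries]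
    exact Subgroup.lowerCentralSeries_mono c le_top
  rw [le_bot_iff, Subgroup.map_eq_bot_iff_of_injective _ H.subtype_injective] at h1
  exact h1

theorem N_BIG (hTRI : N_TRI_stmt) (hSPL : N_SPL_stmt) (hPOW : N_POW_stmt) (hCEN : N_CEN_stmt) :
    N_BIG_stmt := by
  intro n hn K V _ _ _ _ _ _ P _ hdim hnil htf hlcs ρ hρ
  have := hnil
  -- the class
  have hm : n - 2 < Group.nilpotencyClass P := by
    by_contra hcon
    push Not at hcon
    exact hlcs (Subgroup.lowerCentralSeries_eq_bot_iff_nilpotencyClass_le.2 hcon)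
  obtain ⟨c, hc⟩ : ∃ c, Group.nilpotencyClass P = c + 1 := ⟨Group.nilpotencyClass P - 1, by omega⟩
  have hc1 : (⊤ : Subgroup P).lowerCentralSeries (c + 1) = ⊥ :=
    Subgroup.lowerCentralSeries_eq_bot_iff_nilpotencyClass_le.2 hc.le
  have hc0 : (⊤ : Subgroup P).lowerCentralSeries c ≠ ⊥ := by
    intro h
    have := Subgroup.lowerCentralSeries_eq_bot_iff_nilpotencyClass_le.1 h
    omega
  have hcu : Subgroup.upperCentralSeries P (c + 1) = ⊤ :=
    Subgroup.lowerCentralSeries_eq_bot_iff_upperCentralSeries_eq_top.1 hc1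
  set H : Subgroup P := Subgroup.closure
    (Set.range fun g : P => g ^ (finrank K V).factorial ^ (c + 1)) with hH
  have htri : TriS (ρ.comp H.subtype) := hTRI K V P (c + 1) hcu ρ H hH
  have hpw : ∀ g : P, ∃ k : ℕ, 0 < k ∧ g ^ k ∈ H := by
    intro g
    refine ⟨(finrank K V).factorial ^ (c + 1), pow_pos (Nat.factorial_pos _) _, ?_⟩
    exact Subgroup.subset_closure ⟨g, rfl⟩
  have hH0 := hPOW P H c htf hpw hc0 hc1
  have hH1 : (⊤ : Subgroup H).lowerCentralSeries (c + 1) = ⊥ := N_BIG_sub H _ hc1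
  have hHnil : Group.IsNilpotent H := inferInstance
  obtain ⟨hS1, hS2⟩ := hSPL K V H hHnil (ρ.comp H.subtype) htri
  have hinj : ∀ t : H, (ρ.comp H.subtype) t = 1 → t = 1 := by
    intro t ht
    have h1 : ρ (t : P) = ρ 1 := by
      rw [map_one]
      exact ht
    exact Subtype.ext (hρ h1)
  -- the class is `n - 1`
  have hcn : c = n - 2 := by
    by_contra hcon
    have h1 : n - 1 ≤ c := by omega
    apply hH0
    rw [eq_bot_iff]
    intro t ht
    rw [Subgroup.mem_bot]
    apply hinj
    apply hS1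
    have h2 : max (finrank K V) 2 - 1 ≤ c := by
      rw [hdim, max_eq_left (by omega)]
      exact h1
    exact Subgroup.lowerCentralSeries_antitone _ h2 ht
  obtain ⟨c', hc'⟩ : ∃ c', c = c' + 1 := ⟨c - 1, by omega⟩
  -- a nontrivial commutator
  obtain ⟨p, hp, q, hpq⟩ : ∃ p ∈ (⊤ : Subgroup H).lowerCentralSeries c', ∃ q : H, ⁅p, q⁆ ≠ 1 := by
    by_contra hcon
    push Not at hcon
    apply hH0
    rw [hc', Subgroup.lowerCentralSeries_succ, eq_bot_iff, Subgroup.commutator_le]
    intro p hp q _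
    rw [Subgroup.mem_bot]
    exact hcon p hp q
  have ht : ⁅p, q⁆ ∈ (⊤ : Subgroup H).lowerCentralSeries c := by
    rw [hc', Subgroup.lowerCentralSeries_succ]
    exact Subgroup.commutator_mem_commutator hp (Subgroup.mem_top _)
  set t : H := ⁅p, q⁆ with htdef
  have hcent : ∀ h : H, t * h = h * t := by
    intro h
    have h1 : ⁅t, h⁆ ∈ (⊤ : Subgroup H).lowerCentralSeries (c + 1) := by
      rw [Subgroup.lowerCentralSeries_succ]
      exact Subgroup.commutator_mem_commutator ht (Subgroup.mem_top _)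
    rw [hH1, Subgroup.mem_bot] at h1
    exact commutatorElement_eq_one_iff_mul_comm.1 h1
  have hrank := hS2 (by omega) t (by rw [hdim, ← hcn]; exact ht)
  have hne : (ρ.comp H.subtype) t - 1 ≠ 0 := by
    intro h
    exact hpq (hinj t (sub_eq_zero.1 h))
  have hrank1 : finrank K (LinearMap.range ((ρ.comp H.subtype) t - 1)) ≠ 0 := by
    intro h
    rw [Submodule.finrank_eq_zero, LinearMap.range_eq_bot] at h
    exact hne h
  have hPc : ∀ h : H, (t : P) * (h : P) = (h : P) * (t : P) := by
    intro h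
    exact congrArg (fun z : H => (z : P)) (hcent h)
  have hcen := hCEN P htf (p : P) (q : P) (t : P) rfl
    (fun h => hpq (Subtype.ext h)) (hPc p) (hPc q)
  refine ⟨(t : P), (p : P), hPc p, ?_, hcen⟩
  have h1 : (ρ.comp H.subtype) t = ρ (t : P) := rfl
  rw [h1] at hrank hrank1
  omega

end Pool.Agent.PR
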