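import Pool.Agent.helper5.PR.SpecX

/-!
# Project pr: module X-JR: the joint transfer in a convenient form
-/

set_option autoImplicit false

namespace Pool.Agent.PR

open Matrix

theorem X_JR_int {k : ℕ} (a : ℤ)
    (h : ∀ q : Nat.Primes, (q : ℕ) ∣ k → ((k : ℕ) : ℤ_[(q : ℕ)]) ∣ ((a : ℤ) : ℤ_[(q : ℕ)])) :
    (k : ℤ) ∣ a := by
  rw [← Int.natAbs_dvd_natAbs, Int.natAbs_natCast, Nat.dvd_iff_prime_pow_dvd_dvd]
  intro p e hp hpe
  rcases Nat.eq_zero_or_pos e with he | he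
  · rw [he, pow_zero]
    exact one_dvd _
  · have hpk : p ∣ k := (dvd_pow_self p he.ne').trans hpe
    have : Fact p.Prime := ⟨hp⟩
    have h1 := h ⟨p, hp⟩ hpk
    obtain ⟨b, hb⟩ := hpe
    have h2 : ((p : ℤ_[p]) ^ e) ∣ ((a : ℤ) : ℤ_[p]) := by
      refine dvd_trans ?_ h1
      refine ⟨(b : ℤ_[p]), ?_⟩
      rw [hb]
      push_cast
      rfl
    have h3 := (PadicInt.pow_p_dvd_int_iff e a).mp h2
    have h4 := Int.natAbs_dvd_natAbs.mpr h3
    have h5 : ((p : ℤ) ^ e).natAbs = p ^ e := by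
      rw [← Nat.cast_pow, Int.natAbs_natCast]
    rwa [h5] at h4

theorem X_JR_num (hZI : S_ZI_stmt) {m : ℕ} (hm : 1 ≤ m) (z : ZI m) :
    ∃ (r : ℕ) (u : ℤ), (z : ℚ) * (m : ℚ) ^ r = (u : ℚ) := by
  obtain ⟨r, hr⟩ := (hZI m hm (z : ℚ)).mp z.2
  obtain ⟨b, hb⟩ := hr
  refine ⟨r, (z : ℚ).num * b, ?_⟩
  have h1 : ((m : ℚ)) ^ r = ((z : ℚ).den : ℚ) * (b : ℚ) := by
    have := congrArg (Nat.cast : ℕ → ℚ) hb
    push_cast at this
    exact this
  rw [h1, ← mul_assoc, Rat.mul_den_eq_num]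
  push_cast
  rfl

theorem X_JR_unit {m k : ℕ} (hkm : k.Coprime m) (q : Nat.Primes) (hq : (q : ℕ) ∣ k) :
    IsUnit ((m : ℕ) : ℤ_[(q : ℕ)]) := by
  rw [PadicInt.isUnit_iff]
  have h1 : ¬ (q : ℕ) ∣ m := by
    intro h
    have h2 := Nat.dvd_gcd hq h
    rw [hkm] at h2
    exact q.2.one_lt.ne' (Nat.dvd_one.mp h2)
  rcases lt_or_eq_of_le (PadicInt.norm_le_one ((m : ℕ) : ℤ_[(q : ℕ)])) with h | h
  · have h2 : ‖((m : ℤ) : ℤ_[(q : ℕ)])‖ < 1 := by
      rw [Int.cast_natCast]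
      exact h
    rw [PadicInt.norm_int_lt_one_iff_dvd] at h2
    exact absurd (Int.natCast_dvd_natCast.mp h2) h1
  · exact h

theorem X_JR_loc (hZI : S_ZI_stmt) {m k : ℕ} (hm : 1 ≤ m) (_hk : 1 ≤ k) (hkm : k.Coprime m)
    (y : ZI m) (c : (q : Nat.Primes) → ℤ_[(q : ℕ)])
    (hc : ∀ q : Nat.Primes, (q : ℕ) ∣ k →
      ((c q : ℤ_[(q : ℕ)]) : ℚ_[(q : ℕ)]) = (((y : ℚ) : ℚ) : ℚ_[(q : ℕ)])) :
    (∃ a : ZI m, (y : ℚ) = (k : ℚ) * (a : ℚ)) ↔
      ∀ q : Nat.Primes, (q : ℕ) ∣ k → ((k : ℕ) : ℤ_[(q : ℕ)]) ∣ c q := by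
  have hm0 : (m : ℚ) ≠ 0 := by
    exact_mod_cast (Nat.one_le_iff_ne_zero.mp hm)
  -- from a rational identity to the q-adic one
  have key : ∀ (r : ℕ) (u : ℤ), (y : ℚ) * (m : ℚ) ^ r = (u : ℚ) → ∀ q : Nat.Primes, (q : ℕ) ∣ k →
      c q * ((m : ℕ) : ℤ_[(q : ℕ)]) ^ r = ((u : ℤ) : ℤ_[(q : ℕ)]) := by
    intro r u hu q hq
    apply PadicInt.ext
    push_cast
    rw [hc q hq]
    have h1 : (((y : ℚ) * (m : ℚ) ^ r : ℚ) : ℚ_[(q : ℕ)]) = (((u : ℤ) : ℚ) : ℚ_[(q : ℕ)]) := by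
      rw [hu]
    rw [Rat.cast_mul, Rat.cast_pow, Rat.cast_natCast, Rat.cast_intCast] at h1
    exact h1
  constructor
  · rintro ⟨a, ha⟩ q hq
    obtain ⟨r, v, hv⟩ := X_JR_num hZI hm a
    have h1 : (y : ℚ) * (m : ℚ) ^ r = (((k : ℤ) * v : ℤ) : ℚ) := by
      rw [ha, mul_assoc, hv]
      push_cast
      rfl
    have h2 := key r _ h1 q hq
    have h3 : ((k : ℕ) : ℤ_[(q : ℕ)]) ∣ c q * ((m : ℕ) : ℤ_[(q : ℕ)]) ^ r := by
      rw [h2]
      refine ⟨(v : ℤ_[(q : ℕ)]), ?_⟩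
      push_cast
      rfl
    exact (((X_JR_unit hkm q hq).pow r).dvd_mul_right).mp h3
  · intro h
    obtain ⟨r, u, hu⟩ := X_JR_num hZI hm y
    have h1 : (k : ℤ) ∣ u := by
      refine X_JR_int u fun q hq => ?_
      rw [← key r u hu q hq]
      exact (h q hq).mul_right _
    obtain ⟨v, hv⟩ := h1
    have hmem : ((v : ℚ)) * ((m : ℚ)⁻¹) ^ r ∈ ZI m := by
      refine Subalgebra.mul_mem _ ?_ (Subalgebra.pow_mem _ (Algebra.subset_adjoin (Set.mem_singleton _)) r)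
      have h5 := Subalgebra.algebraMap_mem (ZI m) v
      exact h5
    refine ⟨⟨_, hmem⟩, ?_⟩
    change (y : ℚ) = (k : ℚ) * ((v : ℚ) * ((m : ℚ)⁻¹) ^ r)
    have h2 : (y : ℚ) * (m : ℚ) ^ r = (k : ℚ) * (v : ℚ) := by
      rw [hu, hv]
      push_cast
      rfl
    rw [inv_pow, ← mul_assoc, ← h2, mul_assoc, mul_inv_cancel₀ (pow_ne_zero r hm0), mul_one]

/-- congruences are compatible with multiplication -/
theorem X_JR_mc {n : ℕ} {R : Type} [CommRing R] {k : ℕ} {A B : Matrix (Fin n) (Fin n) R}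
    (h : MC k A B) (U V : Matrix (Fin n) (Fin n) R) : MC k (U * A * V) (U * B * V) := by
  intro i j
  have h1 : (U * A * V) i j - (U * B * V) i j = (U * (A - B) * V) i j := by
    rw [Matrix.mul_sub, Matrix.sub_mul, Matrix.sub_apply]
  rw [h1, Matrix.mul_apply]
  refine Finset.dvd_sum fun l _ => Dvd.dvd.mul_right ?_ _
  rw [Matrix.mul_apply]
  refine Finset.dvd_sum fun l' _ => Dvd.dvd.mul_left ?_ _
  rw [Matrix.sub_apply]
  exact h l' l

theorem X_JR_symm {n : ℕ} {R : Type} [CommRing R] {k : ℕ} {A B : Matrix (Fin n) (Fin n) R}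
    (h : MC k A B) : MC k B A := by
  intro i j
  have := (h i j).neg_right
  rwa [neg_sub] at this

theorem X_JR_trans {n : ℕ} {R : Type} [CommRing R] {k : ℕ} {A B C : Matrix (Fin n) (Fin n) R}
    (h : MC k A B) (h' : MC k B C) : MC k A C := by
  intro i j
  have := dvd_add (h i j) (h' i j)
  rwa [sub_add_sub_cancel] at this

theorem X_JR_tr {n : ℕ} {R : Type} [CommRing R] {k : ℕ} {A : Matrix (Fin n) (Fin n) R}
    (h : MC k A 1) : MC k Aᵀ 1 := by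
  intro i j
  have := h j i
  rw [Matrix.transpose_apply]
  have h1 : (1 : Matrix (Fin n) (Fin n) R) i j = (1 : Matrix (Fin n) (Fin n) R) j i := by
    rw [Matrix.one_apply, Matrix.one_apply]
    simp [eq_comm]
  rw [h1]
  exact this

theorem X_JR_stdmul {n : ℕ} {F : Type} [CommRing F] (γ δ : SLZ n) :
    stdM F (γ * δ) = stdM F γ * stdM F δ := by
  exact Matrix.map_mul (f := Int.castRingHom F)

theorem X_JR_stdone {n : ℕ} {F : Type} [CommRing F] : stdM F (1 : SLZ n) = 1 := by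
  exact Matrix.map_one (Int.castRingHom F) (map_zero _) (map_one _)

theorem X_JR_inv {n : ℕ} {F : Type} [CommRing F] {k : ℕ} {γ : SLZ n} (h : MC k (stdM F γ) 1) :
    MC k (stdM F γ⁻¹) 1 := by
  have h1 := X_JR_mc h (stdM F γ⁻¹) 1
  rw [← X_JR_stdmul, inv_mul_cancel, X_JR_stdone, mul_one, mul_one, mul_one] at h1
  exact X_JR_symm h1

theorem X_JR_sd {n : ℕ} {F : Type} [CommRing F] {k : ℕ} {γ : SLZ n} (s : Bool) :
    MC k (sdM s F γ) 1 ↔ MC k (stdM F γ) 1 := by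
  unfold sdM
  split_ifs
  · exact Iff.rfl
  · unfold duM
    constructor
    · intro h
      have h1 := X_JR_tr h
      rw [Matrix.transpose_transpose] at h1
      have h2 := X_JR_inv h1
      rwa [inv_inv] at h2
    · intro h
      exact X_JR_tr (X_JR_inv h)

theorem X_JR_red {n k : ℕ} (γ : SLZ n) :
    redZ n k γ = 1 ↔ ∀ i j, (k : ℤ) ∣ (γ : Matrix (Fin n) (Fin n) ℤ) i j -
      (1 : Matrix (Fin n) (Fin n) ℤ) i j := by
  have h0 : redZ n k γ = 1 ↔ ∀ i j, (redZ n k γ).1 i j = (1 : SLd n k).1 i j :=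
    ⟨fun h i j => by rw [h], fun h => Subtype.ext (Matrix.ext h)⟩
  rw [h0]
  refine forall_congr' fun i => forall_congr' fun j => ?_
  have h1 : (redZ n k γ).1 i j =
      (((γ : Matrix (Fin n) (Fin n) ℤ) i j : ℤ) : ZMod k) := rfl
  have h2 : (1 : SLd n k).1 i j =
      (((1 : Matrix (Fin n) (Fin n) ℤ) i j : ℤ) : ZMod k) := by
    change (1 : Matrix (Fin n) (Fin n) (ZMod k)) i j = _
    rw [Matrix.one_apply, Matrix.one_apply]
    split_ifs <;> simp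
  rw [h1, h2, ← sub_eq_zero, ← Int.cast_sub, ZMod.intCast_zmod_eq_zero_iff_dvd]

theorem X_JR_core (hZI : S_ZI_stmt) {n m k : ℕ} (hm : 1 ≤ m) (hk : 1 ≤ k) (hkm : k.Coprime m)
    (x : SLI n m) (γ : SLZ n)
    (X Y : (q : Nat.Primes) → Matrix (Fin n) (Fin n) ℤ_[(q : ℕ)])
    (s : Nat.Primes → Bool) (hXY : ∀ q, X q * Y q = 1 ∧ Y q * X q = 1)
    (h : ∀ q : Nat.Primes, (q : ℕ) ∣ k →
      ∃ C : Matrix (Fin n) (Fin n) ℤ_[(q : ℕ)],
        (∀ i j, ((C i j : ℤ_[(q : ℕ)]) : ℚ_[(q : ℕ)]) = (ratM x i j : ℚ_[(q : ℕ)])) ∧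
        MC k C (X q * sdM (s q) _ γ * Y q)) :
    CgI k x ↔ redZ n k γ = 1 := by
  classical
  choose! C hC hMC using h
  have hA : ∀ q : Nat.Primes, (q : ℕ) ∣ k →
      (MC k (C q) 1 ↔ MC k (stdM ℤ_[(q : ℕ)] γ) 1) := by
    intro q hq
    rw [← X_JR_sd (s q)]
    have h1 := hMC q hq
    constructor
    · intro h2
      have h3 : MC k (X q * sdM (s q) _ γ * Y q) 1 := X_JR_trans (X_JR_symm h1) h2
      have h4 := X_JR_mc h3 (Y q) (X q)
      have h5 : Y q * (X q * sdM (s q) _ γ * Y q) * X q = sdM (s q) _ γ := by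
        calc Y q * (X q * sdM (s q) _ γ * Y q) * X q
            = (Y q * X q) * sdM (s q) _ γ * (Y q * X q) := by simp only [Matrix.mul_assoc]
          _ = _ := by rw [(hXY q).2, one_mul, mul_one]
      rw [h5, mul_one, (hXY q).2] at h4
      exact h4
    · intro h2
      have h4 := X_JR_mc h2 (X q) (Y q)
      rw [mul_one, (hXY q).1] at h4
      exact X_JR_trans h1 h4
  have hB : redZ n k γ = 1 ↔ ∀ q : Nat.Primes, (q : ℕ) ∣ k → MC k (stdM ℤ_[(q : ℕ)] γ) 1 := by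
    rw [X_JR_red]
    have hent : ∀ (q : Nat.Primes) i j, stdM ℤ_[(q : ℕ)] γ i j -
        (1 : Matrix (Fin n) (Fin n) ℤ_[(q : ℕ)]) i j =
        (((γ : Matrix (Fin n) (Fin n) ℤ) i j - (1 : Matrix (Fin n) (Fin n) ℤ) i j : ℤ) :
          ℤ_[(q : ℕ)]) := by
      intro q i j
      rw [Int.cast_sub]
      congr 1
      rw [Matrix.one_apply, Matrix.one_apply]
      split_ifs <;> simp
    constructor
    · intro h1 q hq i j
      rw [hent]
      obtain ⟨b, hb⟩ := h1 i j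
      refine ⟨(b : ℤ_[(q : ℕ)]), ?_⟩
      rw [hb]
      push_cast
      rfl
    · intro h1 i j
      refine X_JR_int _ fun q hq => ?_
      rw [← hent]
      exact h1 q hq i j
  rw [hB]
  have hone : ∀ i j, ∃ o : ZI m, (o : ℚ) = (1 : Matrix (Fin n) (Fin n) ℚ) i j := by
    intro i j
    rw [Matrix.one_apply]
    split_ifs
    · exact ⟨1, rfl⟩
    · exact ⟨0, rfl⟩
  have hD : CgI k x ↔ ∀ q : Nat.Primes, (q : ℕ) ∣ k → MC k (C q) 1 := by
    have hloc : ∀ i j, (∃ a : ZI m, ratM x i j - (1 : Matrix (Fin n) (Fin n) ℚ) i j =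
        (k : ℚ) * (a : ℚ)) ↔ ∀ q : Nat.Primes, (q : ℕ) ∣ k →
          ((k : ℕ) : ℤ_[(q : ℕ)]) ∣ C q i j - (1 : Matrix (Fin n) (Fin n) ℤ_[(q : ℕ)]) i j := by
      intro i j
      obtain ⟨o, ho⟩ := hone i j
      have h1 : ratM x i j - (1 : Matrix (Fin n) (Fin n) ℚ) i j =
          (((x : Matrix (Fin n) (Fin n) (ZI m)) i j - o : ZI m) : ℚ) := by
        rw [← ho]
        rfl
      rw [h1]
      refine X_JR_loc hZI hm hk hkm _
        (fun q => C q i j - (1 : Matrix (Fin n) (Fin n) ℤ_[(q : ℕ)]) i j) ?_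
      intro q hq
      rw [← h1]
      push_cast
      rw [hC q hq]
      congr 1
      rw [Matrix.one_apply, Matrix.one_apply]
      split_ifs <;> simp
    constructor
    · intro h1 q hq i j
      exact (hloc i j).mp (h1 i j) q hq
    · intro h1 i j
      exact (hloc i j).mpr fun q hq => h1 q hq i j
  rw [hD]
  exact forall_congr' fun q => forall_congr' fun hq => hA q hq

theorem X_JR (hJNT : S_JNT_stmt) (hRED : X_RED_stmt) (hZI : S_ZI_stmt) : X_JR_stmt := by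
  intro n hn Λ _ hQ m hm R hR
  have _ := hRED
  obtain ⟨S, X, Y, s, hXY, h1, h2⟩ := hJNT n hn Λ hQ m hm R hR
  refine ⟨S, ?_, ?_⟩
  · intro l M k hk hkm
    obtain ⟨γ, hγ, hq⟩ := h1 l M k hk hkm
    exact ⟨γ, hγ, X_JR_core hZI hm hk hkm (R l) γ X Y s hXY hq⟩
  · intro γ M k hk hkm
    obtain ⟨l, hl, hq⟩ := h2 γ M k hk hkm
    exact ⟨l, hl, X_JR_core hZI hm hk hkm (R l) γ X Y s hXY hq⟩

end Pool.Agent.PR
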